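import Pool.Agent.KIR.S6.Stm

/-!
# Project KIR, section S6: assembly (helper66)
-/

set_option autoImplicit false

namespace Pool.Agent.KIR.S6

open MvPolynomial

namespace Asm

variable {n : ℕ}

/-- the value of the coefficient polynomial -/
noncomputable def Q (q : MvPolynomial (Fin n) ℕ) (b : Fin n → ℤ) : ℤ :=
  eval₂ (Nat.castRingHom ℤ) b q

theorem Q_cast (q : MvPolynomial (Fin n) ℕ) (b : Fin n → ℤ) :
    ((Q q b : ℤ) : ℝ) = eval₂ (Nat.castRingHom ℝ) (fun j => (b j : ℝ)) q := by
  have h := MvPolynomial.eval₂_comp_left (Int.castRingHom ℝ) (Nat.castRingHom ℤ) b q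
  have e : (Int.castRingHom ℝ).comp (Nat.castRingHom ℤ) = Nat.castRingHom ℝ := Subsingleton.elim _ _
  rw [e] at h
  exact h

theorem Q_map (q : MvPolynomial (Fin n) ℕ) (b : Fin n → ℤ) :
    eval b (map (Nat.castRingHom ℤ) q) = Q q b := by
  rw [eval_map]
  rfl

theorem Fc_eval (c : Fin n → Option (Fin (n + n))) (b a : Fin n → ℤ) :
    ((eval a (Fc c b) : ℤ) : ℝ) =
      ∏ s ∈ Zb c, ((a s.1 : ℝ) - (Fin.append b (fun _ => (0 : ℤ)) s.2 : ℤ)) := by
  unfold Fc
  rw [map_prod]
  push_cast
  refine Finset.prod_congr rfl fun s _ => ?_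
  rw [map_sub, eval_X, eval_C]
  push_cast
  rfl

theorem cast_eval_list {α : Type} (l : List α) (f : α → R n) (a : Fin n → ℤ) :
    ((eval a (l.map f).sum : ℤ) : ℝ) = (l.map fun x => ((eval a (f x) : ℤ) : ℝ)).sum := by
  rw [map_list_sum, List.map_map]
  have h := map_list_sum (Int.castRingHom ℝ) (l.map (⇑(eval a) ∘ f))
  rw [List.map_map] at h
  exact h

/-- `D w` is additive on lists -/
theorem D_list {D : P n → R n → R n} {w : P n} (hadd : ∀ f g, D w (f + g) = D w f + D w g)
    {α : Type} (l : List α) (f : α → R n) :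
    D w (l.map f).sum = (l.map fun x => D w (f x)).sum := by
  let φ : R n →+ R n := AddMonoidHom.mk' (D w) hadd
  have h := map_list_sum φ (l.map f)
  rw [List.map_map] at h
  exact h

end Asm

open Asm in
/-- The section. -/
theorem alg (hOPA : S_OPA) (hOPB : S_OPB) (hOPC : S_OPC) (hVAN : S_VAN) (hFCV : S_FCV)
    (hPAIR : S_PAIR) (hSCH : S_SCH) (hDWE : S_DWE) (hDEN : S_DEN) (hGZ : S_GZ) : S_ALG := by
  intro hGEO n D E hD1 hD2 hE u v w m
  have hD : IsD D := ⟨hD1, hD2⟩
  obtain ⟨a1, a2, hadd, hsmul, a5, a6⟩ := hOPA n D hD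
  have hzero : ∀ s : P n, D s 0 = 0 := by
    intro s
    have h := hsmul s 0 0
    rw [C_0, zero_mul, zero_mul] at h
    exact h
  obtain ⟨l, K, hK, hl, hid⟩ := hGEO n _ (hSCH n D hD) u v
  rw [← hGZ]
  -- the values of the words
  have heps : ∀ x : MvPolynomial (Fin n) ℕ × List (Fin n × Fin n) ×
      (Fin n → Option (Fin (n + n))), ∃ ε : ℕ, x ∈ l → ∀ b : Fin n → ℤ, Function.Injective b →
      eval b (D w (dl D x.2.1 (Fc x.2.2 b))) = (ε : ℤ) := by
    intro x
    by_cases hx : x ∈ l
    · obtain ⟨hadj, -, hdec⟩ := hl x hx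
      have hw : (∀ f, D w (dl D x.2.1 f) = 0) ∨ ∃ s : P n, ∀ f, D w (dl D x.2.1 f) = D s f := by
        rcases hOPC n D hD x.2.1 hadj with h | ⟨s, -, hs⟩
        · exact Or.inl fun f => by rw [h f, hzero]
        · rcases (hOPB n D hD w s).1 with h | h
          · exact Or.inl fun f => by rw [hs f, h f]
          · exact Or.inr ⟨w * s, fun f => by rw [hs f, h f]⟩
      rcases hw with h | ⟨s, hs⟩
      · exact ⟨0, fun _ b _ => by rw [h, map_zero]; rfl⟩
      · rcases hFCV n x.2.2 hdec with h | h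
        · refine ⟨0, fun _ b hb => ?_⟩
          rw [hs]
          have h2 := hVAN n D hD b hb s 1 (Fc x.2.2 b) (fun π _ => h b (1 * π))
          simpa using h2
        · refine ⟨if s = Fin.revPerm then 1 else 0, fun _ b hb => ?_⟩
          rw [hs, h b, (hPAIR n D hD b hb).1 s]
          split_ifs <;> rfl
    · exact ⟨0, fun h => absurd h hx⟩
  choose ε hε using heps
  -- the identity for every `b`
  have key : ∀ b : Fin n → ℤ, Function.Injective b → (∀ j, 0 < b j) →
      (K : ℤ) * eval b (E w v (D (u⁻¹ * Fin.revPerm) (gb fun _ => 0))) =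
        (l.map fun x => Q x.1 b * (ε x : ℤ)).sum := by
    intro b hb hpos
    have hpoly : C (K : ℤ) * (D (u⁻¹ * Fin.revPerm) (gb fun _ => 0) *
        D (v⁻¹ * Fin.revPerm) (gb b)) =
        (l.map fun x => C (Q x.1 b) * dl D x.2.1 (Fc x.2.2 b)).sum := by
      refine hDEN n _ _ (∑ j, b j) fun a ha hB => ?_
      have hsum : ∀ j, b j ≤ ∑ j, b j := fun j =>
        Finset.single_le_sum (f := b) (fun i _ => (hpos i).le) (Finset.mem_univ j)
      have hsum0 : 0 ≤ ∑ j, b j := Finset.sum_nonneg fun i _ => (hpos i).le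
      have h1 := hid a b ha (fun i => lt_of_le_of_lt hsum0 (hB i)) hpos
        (fun i j => lt_of_le_of_lt (hsum j) (hB i))
      apply Int.cast_injective (α := ℝ)
      rw [cast_eval_list]
      have h2 : ∀ x ∈ l, ((eval a (C (Q x.1 b) * dl D x.2.1 (Fc x.2.2 b)) : ℤ) : ℝ) =
          (eval₂ (Nat.castRingHom ℝ) (fun j => (b j : ℝ)) x.1) *
          dw x.2.1 (fun a' => ∏ s ∈ Zb x.2.2,
            ((a' s.1 : ℝ) - (Fin.append b (fun _ => (0 : ℤ)) s.2 : ℤ))) a := by
        intro x hx
        obtain ⟨hadj, -, -⟩ := hl x hx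
        have h3 := hDWE n D hD x.2.1 hadj (Fc x.2.2 b) a ha
        rw [map_mul, eval_C, Int.cast_mul, Q_cast, ← h3]
        congr 2
        funext a'
        exact Fc_eval x.2.2 b a'
      rw [List.map_congr_left h2, ← h1, map_mul, map_mul, eval_C]
      push_cast
      rfl
    have h3 := congrArg (fun f => eval b (D w f)) hpoly
    rw [hsmul, map_mul, eval_C, D_list (hadd w), map_list_sum, List.map_map] at h3
    have h4 : eval b (D w (D (u⁻¹ * Fin.revPerm) (gb fun _ => 0) *
        D (v⁻¹ * Fin.revPerm) (gb b))) =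
        eval b (E w v (D (u⁻¹ * Fin.revPerm) (gb fun _ => 0))) := by
      rw [hE, map_sum]
      have h5 : ∀ v' ∈ (Finset.univ : Finset (P n)),
          eval b (E w v' (D (u⁻¹ * Fin.revPerm) (gb fun _ => 0)) *
            D v' (D (v⁻¹ * Fin.revPerm) (gb b))) =
          if v' = v then eval b (E w v' (D (u⁻¹ * Fin.revPerm) (gb fun _ => 0))) else 0 := by
        intro v' _
        rw [map_mul, (hPAIR n D hD b hb).2 v v']
        split_ifs
        · rw [mul_one]
        · rw [mul_zero]
      rw [Finset.sum_congr rfl h5, Finset.sum_ite_eq' Finset.univ v, if_pos (Finset.mem_univ v)]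
    rw [h4] at h3
    rw [h3]
    congr 1
    refine List.map_congr_left fun x hx => ?_
    rw [Function.comp_apply, hsmul, map_mul, eval_C, hε x hx b hb]
  -- identity of polynomials in `b`
  have hfin : C (K : ℤ) * E w v (D (u⁻¹ * Fin.revPerm) (gb fun _ => 0)) =
      (l.map fun x => C (ε x : ℤ) * map (Nat.castRingHom ℤ) x.1).sum := by
    refine hDEN n _ _ 0 fun b hb hpos => ?_
    rw [map_mul, eval_C, key b hb hpos, map_list_sum, List.map_map]
    congr 1
    refine List.map_congr_left fun x _ => ?_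
    rw [Function.comp_apply, map_mul, eval_C, Q_map, mul_comm]
  have hco := congrArg (coeffAddMonoidHom m) hfin
  rw [map_list_sum, List.map_map] at hco
  have h0 : 0 ≤ (l.map ((⇑(coeffAddMonoidHom (R := ℤ) m)) ∘
      fun x => C (ε x : ℤ) * map (Nat.castRingHom ℤ) x.1)).sum := by
    refine List.sum_nonneg fun z hz => ?_
    obtain ⟨x, -, rfl⟩ := List.mem_map.1 hz
    rw [Function.comp_apply, coeffAddMonoidHom_apply, coeff_C_mul, coeff_map]
    exact mul_nonneg (Int.natCast_nonneg _) (Int.natCast_nonneg _)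
  rw [← hco, coeffAddMonoidHom_apply, coeff_C_mul] at h0
  exact nonneg_of_mul_nonneg_right h0 (by exact_mod_cast hK)

end Pool.Agent.KIR.S6
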