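import Pool.Agent.KIR.S6.Stm

/-!
# Project KIR, piece DEN: density of points
-/

set_option autoImplicit false
set_option linter.all false

namespace Pool.Agent.KIR.S6

open MvPolynomial

theorem t_DEN : S_DEN := by
  classical
  intro n p q B h
  let V : R n := ∏ s ∈ Finset.univ.filter (fun s : Fin n × Fin n => s.1 ≠ s.2),
    (X s.1 - X s.2)
  have hV : V ≠ 0 := by
    rw [Finset.prod_ne_zero_iff]
    intro s hs h0
    rw [Finset.mem_filter] at hs
    rw [sub_eq_zero] at h0
    exact hs.2 (X_injective h0)
  have h1 : (p - q) * V = 0 := by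
    refine funext_set (fun _ => Set.Ioi B) (fun _ => Set.Ioi_infinite B) ?_
    intro a ha
    rw [map_mul, map_zero, map_sub]
    by_cases hinj : Function.Injective a
    · rw [h a hinj fun i => ha i (Set.mem_univ i), sub_self, zero_mul]
    · have h2 : eval a V = 0 := by
        unfold Function.Injective at hinj
        push Not at hinj
        obtain ⟨i, j, hij, hne⟩ := hinj
        rw [map_prod]
        refine Finset.prod_eq_zero (Finset.mem_filter.2 ⟨Finset.mem_univ (i, j), hne⟩) ?_
        rw [map_sub, eval_X, eval_X, hij, sub_self]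
      rw [h2, mul_zero]
  rcases mul_eq_zero.1 h1 with h2 | h2
  · exact sub_eq_zero.1 h2
  · exact absurd h2 hV

end Pool.Agent.KIR.S6
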