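import Pool.Agent.KIR.S6.Stm

/-!
# Project KIR, section S6, piece DWE (helper72)
-/

set_option autoImplicit false

namespace Pool.Agent.KIR.S6

open MvPolynomial

theorem t_DWE (hA : S_OPA) : S_DWE := by
  intro n D hD l
  induction l with
  | nil => intro _ f a _; rfl
  | cons x l ih =>
    intro hl f a ha
    have hl' : Adj l := fun y hy => hl y (List.mem_cons_of_mem x hy)
    have hx : (x.2 : ℕ) = x.1 + 1 := hl x List.mem_cons_self
    have hij : x.1 ≠ x.2 := fun h => by rw [h] at hx; omega
    have ha' : Function.Injective (a ∘ Equiv.swap x.1 x.2) := ha.comp (Equiv.injective _)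
    show dn x.1 x.2 (dw l (fun a' => ((eval a' f : ℤ) : ℝ))) a =
      ((eval a (D (Equiv.swap x.1 x.2) (dl D l f)) : ℤ) : ℝ)
    unfold dn
    rw [ih hl' f a ha, ih hl' f _ ha']
    have h1 := congrArg (eval a) ((hA n D hD).1 x.1 x.2 hx (dl D l f))
    rw [map_mul, map_sub, map_sub, eval_X, eval_X, eval_rename] at h1
    have h2 : ((a x.1 : ℝ) - a x.2) ≠ 0 := by
      intro h
      apply hij
      apply ha
      have : (a x.1 : ℝ) = a x.2 := by linarith
      exact_mod_cast this
    rw [div_eq_iff h2]
    have h3 := congrArg (fun z : ℤ => (z : ℝ)) h1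
    push_cast at h3
    linarith

end Pool.Agent.KIR.S6
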