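import Pool.Agent.KIR.S6.Stm

/-!
# KIR S6, piece FCV
-/

set_option autoImplicit false

namespace Pool.Agent.KIR.S6

open MvPolynomial

namespace FCV

theorem pos_some {m : ℕ} {o : Option (Fin m)} (h : pos o < m) : o ≠ none := by
  rintro rfl
  exact absurd h (lt_irrefl m)

theorem strict {n : ℕ} {c : Fin n → Option (Fin (n + n))} (hc : Dec c)
    (h : ∀ i, pos (c i) < n) (i i' : Fin n) (hi : i < i') : pos (c i') < pos (c i) := by
  rcases hc i i' hi with h1 | h1
  · exact h1
  · exact absurd h1.1 (pos_some (lt_of_lt_of_le (h i) (Nat.le_add_left n n)))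

theorem upper {n : ℕ} {c : Fin n → Option (Fin (n + n))} (hc : Dec c)
    (h : ∀ i, pos (c i) < n) : ∀ (k : ℕ) (hk : k < n), pos (c ⟨k, hk⟩) ≤ n - 1 - k := by
  intro k
  induction k with
  | zero => intro hk; have := h ⟨0, hk⟩; omega
  | succ k ih =>
    intro hk
    have h1 := ih (by omega)
    have h2 := strict hc h ⟨k, by omega⟩ ⟨k + 1, hk⟩ (by simp [Fin.lt_def])
    omega

theorem lower {n : ℕ} {c : Fin n → Option (Fin (n + n))} (hc : Dec c)
    (h : ∀ i, pos (c i) < n) : ∀ (d k : ℕ) (hk : k < n), n - 1 - k = d → d ≤ pos (c ⟨k, hk⟩) := by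
  intro d
  induction d with
  | zero => intro k hk _; exact Nat.zero_le _
  | succ d ih =>
    intro k hk hd
    have h1 := ih (k + 1) (by omega) (by omega)
    have h2 := strict hc h ⟨k, hk⟩ ⟨k + 1, by omega⟩ (by simp [Fin.lt_def])
    omega

end FCV

open FCV

theorem t_FCV : S_FCV := by
  classical
  intro n c hc
  by_cases H : ∀ i : Fin n, pos (c i) ≤ n - 1 - i
  · right
    intro b
    have hlt : ∀ i, pos (c i) < n := fun i => by
      have h1 := H i
      have h2 := i.2
      omega
    have heq : ∀ i : Fin n, pos (c i) = n - 1 - i := fun i =>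
      le_antisymm (H i) (lower hc hlt _ i i.2 rfl)
    unfold Fc gb
    have hZ : Zb c = (Finset.univ.filter (fun s : Fin n × Fin n => (s.1 : ℕ) + s.2 + 1 < n)).image
        (fun s => (s.1, Fin.castAdd n s.2)) := by
      ext s
      rw [Finset.mem_image]
      unfold Zb
      rw [Finset.mem_filter]
      constructor
      · rintro ⟨_, hs⟩
        rw [heq] at hs
        have hs2 : (s.2 : ℕ) < n := by omega
        refine ⟨(s.1, ⟨s.2, hs2⟩), ?_, ?_⟩
        · rw [Finset.mem_filter]
          refine ⟨Finset.mem_univ _, ?_⟩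
          show (s.1 : ℕ) + (s.2 : ℕ) + 1 < n
          omega
        · exact Prod.ext rfl (Fin.ext rfl)
      · rintro ⟨t, ht, rfl⟩
        rw [Finset.mem_filter] at ht
        refine ⟨Finset.mem_univ _, ?_⟩
        rw [heq]
        have := ht.2
        show (t.2 : ℕ) < n - 1 - (t.1 : ℕ)
        omega
    rw [hZ, Finset.prod_image]
    · refine Finset.prod_congr rfl fun s _ => ?_
      rw [Fin.append_left]
    · intro s _ t _ hst
      have h1 := congrArg Prod.fst hst
      have h2 := congrArg Prod.snd hst
      exact Prod.ext h1 (Fin.castAdd_injective n n h2)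
  · left
    intro b π
    obtain ⟨i, hi⟩ : ∃ i, (π i : ℕ) < pos (c i) := by
      by_contra hcon
      push Not at hcon
      refine H fun i => ?_
      exact upper hc (fun i => lt_of_le_of_lt (hcon i) (π i).2) i i.2
    unfold Fc
    rw [map_prod]
    refine Finset.prod_eq_zero (i := (i, Fin.castAdd n (π i))) ?_ ?_
    · unfold Zb
      rw [Finset.mem_filter]
      exact ⟨Finset.mem_univ _, hi⟩
    · rw [map_sub, eval_X, eval_C, Fin.append_left]
      simp

end Pool.Agent.KIR.S6
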