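import Pool.Agent.KIR.S6.Stm

/-!
# Project KIR, section S6, piece GBV
-/

set_option autoImplicit false

namespace Pool.Agent.KIR.S6

open MvPolynomial

theorem t_GBV : S_GBV := by
  intro n b π hπ
  have key : ∃ i : Fin n, (i : ℕ) + (π i : ℕ) + 1 < n := by
    by_contra hcon
    push Not at hcon
    apply hπ
    have h1 : ∑ i : Fin n, ((i : ℕ) + (π i : ℕ) + 1) = ∑ _i : Fin n, n := by
      rw [Finset.sum_add_distrib, Finset.sum_add_distrib,
        Equiv.sum_comp π (fun i : Fin n => (i : ℕ)), Finset.sum_const, Finset.sum_const,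
        Finset.card_univ, Fintype.card_fin, smul_eq_mul, smul_eq_mul, mul_one,
        Fin.sum_univ_eq_sum_range (fun i => i) n]
      have h2 := Finset.sum_range_id_mul_two n
      rcases n with _ | n
      · simp
      · have h3 : (n + 1) * (n + 1 - 1) = n * n + n := by
          rw [Nat.add_sub_cancel]; ring
        rw [h3] at h2
        nlinarith
    have h2 : ∀ i ∈ (Finset.univ : Finset (Fin n)), n = (i : ℕ) + (π i : ℕ) + 1 :=
      (Finset.sum_eq_sum_iff_of_le (fun i _ => hcon i)).mp h1.symm
    ext i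
    have h3 := h2 i (Finset.mem_univ i)
    rw [Fin.revPerm_apply, Fin.val_rev]
    omega
  obtain ⟨i, hi⟩ := key
  rw [gb, map_prod]
  apply Finset.prod_eq_zero (i := (i, π i))
  · rw [Finset.mem_filter]
    exact ⟨Finset.mem_univ _, hi⟩
  · rw [map_sub, eval_X, eval_C]
    exact sub_self _

end Pool.Agent.KIR.S6
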