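import Pool.Agent.KIR.S6.Stm

/-!
Piece GZ of project KIR, section S6 (helper45).
-/

set_option autoImplicit false

namespace Pool.Agent.KIR.S6

open MvPolynomial

theorem t_GZ : S_GZ := by
  intro n
  unfold gb
  rw [Finset.prod_filter, Fintype.prod_prod_type]
  refine Finset.prod_congr rfl (fun i _ => ?_)
  have h1 : ∀ j : Fin n, (if (i : ℕ) + (j : ℕ) + 1 < n then (X i - C (0 : ℤ) : R n) else 1) =
      (fun j : ℕ => if (i : ℕ) + j + 1 < n then (X i : R n) else 1) j := by
    intro j
    simp only [map_zero, sub_zero]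
  simp only [h1]
  rw [Fin.prod_univ_eq_prod_range (fun j : ℕ => if (i : ℕ) + j + 1 < n then (X i : R n) else 1) n,
    Finset.prod_ite, Finset.prod_const_one, mul_one, Finset.prod_const]
  congr 1
  have h2 : (Finset.range n).filter (fun j => (i : ℕ) + j + 1 < n) = Finset.range (n - 1 - (i : ℕ)) := by
    ext j
    simp only [Finset.mem_filter, Finset.mem_range]
    omega
  rw [h2, Finset.card_range]

end Pool.Agent.KIR.S6
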