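import Pool.Agent.KIR.S6.Stm

/-!
# Project KIR, section S6, piece INVB (helper12)
-/

set_option autoImplicit false

namespace Pool.Agent.KIR.S6

namespace INVB

theorem apinv {n : ℕ} (w : P n) (x : Fin n) : w (w⁻¹ x) = x := Equiv.apply_symm_apply w x

theorem invap {n : ℕ} (w : P n) (x : Fin n) : w⁻¹ (w x) = x := Equiv.symm_apply_apply w x

theorem one (n : ℕ) : inv (1 : P n) = 0 := by
  rw [inv, Finset.card_eq_zero, Finset.filter_eq_empty_iff]
  rintro ⟨p, q⟩ _ ⟨h1, h2⟩
  exact lt_asymm h1 h2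

theorem inv_inv {n : ℕ} (w : P n) : inv w⁻¹ = inv w := by
  rw [inv, inv]
  refine Finset.card_nbij' (fun x => (w⁻¹ x.2, w⁻¹ x.1)) (fun x => (w x.2, w x.1)) ?_ ?_ ?_ ?_
  · rintro ⟨p, q⟩ h
    simp only [Finset.coe_filter, Finset.mem_univ, true_and, Set.mem_ofPred_eq] at h ⊢
    refine ⟨h.2, ?_⟩
    rw [apinv, apinv]
    exact h.1
  · rintro ⟨p, q⟩ h
    simp only [Finset.coe_filter, Finset.mem_univ, true_and, Set.mem_ofPred_eq] at h ⊢
    refine ⟨h.2, ?_⟩
    rw [invap, invap]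
    exact h.1
  · rintro ⟨p, q⟩ _
    simp
  · rintro ⟨p, q⟩ _
    simp

theorem rev_eq (n : ℕ) : inv (Fin.revPerm : P n) =
    (Finset.univ.filter (fun p : Fin n × Fin n => p.1 < p.2)).card := by
  rw [inv]
  congr 1
  ext ⟨p, q⟩
  simp only [Finset.mem_filter, Finset.mem_univ, true_and, Fin.revPerm_apply, Fin.rev_lt_rev]
  exact ⟨fun h => h.1, fun h => ⟨h, h⟩⟩

theorem mul_rev {n : ℕ} (w : P n) :
    inv (w * Fin.revPerm) + inv w = inv (Fin.revPerm : P n) := by
  have h1 : inv (w * Fin.revPerm) =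
      (Finset.univ.filter (fun p : Fin n × Fin n => p.1 < p.2 ∧ ¬ w p.2 < w p.1)).card := by
    rw [inv]
    refine Finset.card_nbij' (fun x => (Fin.rev x.2, Fin.rev x.1))
      (fun x => (Fin.rev x.2, Fin.rev x.1)) ?_ ?_ ?_ ?_
    · rintro ⟨p, q⟩ h
      simp only [Finset.coe_filter, Finset.mem_univ, true_and, Set.mem_ofPred_eq,
        Equiv.Perm.mul_apply, Fin.revPerm_apply, Fin.rev_lt_rev] at h ⊢
      exact ⟨h.1, not_lt.2 h.2.le⟩
    · rintro ⟨p, q⟩ h
      simp only [Finset.coe_filter, Finset.mem_univ, true_and, Set.mem_ofPred_eq,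
        Equiv.Perm.mul_apply, Fin.revPerm_apply, Fin.rev_lt_rev, Fin.rev_rev] at h ⊢
      refine ⟨h.1, lt_of_le_of_ne (not_lt.1 h.2) ?_⟩
      intro h'
      exact h.1.ne (w.injective h')
    · rintro ⟨p, q⟩ _
      simp
    · rintro ⟨p, q⟩ _
      simp
  rw [h1, rev_eq, inv, add_comm]
  rw [← Finset.card_filter_add_card_filter_not
    (s := Finset.univ.filter (fun p : Fin n × Fin n => p.1 < p.2)) (fun p => w p.2 < w p.1),
    Finset.filter_filter, Finset.filter_filter]

theorem strictMono {n : ℕ} (f : Fin n → Fin n)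
    (h : ∀ i j : Fin n, j.val = i.val + 1 → f i < f j) : StrictMono f := by
  have key : ∀ (i : Fin n) (m : ℕ), i.val + 1 ≤ m → ∀ hm : m < n, f i < f ⟨m, hm⟩ := by
    intro i m hm
    induction m, hm using Nat.le_induction with
    | base => intro hm; exact h _ _ rfl
    | succ m hm ih =>
      intro hm'
      exact (ih (by omega)).trans (h ⟨m, by omega⟩ ⟨m + 1, hm'⟩ rfl)
  intro i j hij
  exact key i j.val (by rw [Fin.lt_def] at hij; omega) j.2

theorem adj {n : ℕ} (w : P n) (hw : w ≠ 1) : ∃ i j : Fin n, j.val = i.val + 1 ∧ w⁻¹ j < w⁻¹ i := by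
  by_contra hcon
  push Not at hcon
  apply hw
  have h1 : StrictMono (w⁻¹ : P n) := by
    apply strictMono
    intro i j hij
    refine lt_of_le_of_ne (hcon i j hij) ?_
    intro h
    have := (w⁻¹).injective h
    rw [this] at hij
    omega
  have h2 : StrictMono.orderIsoOfSurjective _ h1 (w⁻¹ : P n).surjective = OrderIso.refl _ :=
    Subsingleton.elim _ _
  have h3 : ∀ x, w⁻¹ x = x := fun x => by
    have := congrArg (fun e : Fin n ≃o Fin n => e x) h2
    exact this
  have h4 : w⁻¹ = 1 := Equiv.ext h3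
  rw [← inv_eq_one.1 h4]

theorem inv_posi {n : ℕ} (w : P n) (hw : w ≠ 1) : 0 < inv w := by
  obtain ⟨i, j, hij, h⟩ := adj w hw
  rw [inv, Finset.card_pos]
  refine ⟨(w⁻¹ j, w⁻¹ i), ?_⟩
  simp only [Finset.mem_filter, Finset.mem_univ, true_and, apinv]
  exact ⟨h, by rw [Fin.lt_def]; omega⟩

theorem rev_num (n : ℕ) : inv (Fin.revPerm : P n) = n * (n - 1) / 2 := by
  rw [rev_eq, ← Finset.sum_range_id, Finset.card_filter, Finset.univ_product_univ.symm,
    Finset.sum_product_right]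
  rw [← Fin.sum_univ_eq_sum_range (fun i => i) n]
  refine Finset.sum_congr rfl fun q _ => ?_
  rw [← Finset.card_filter]
  have : Finset.univ.filter (fun p : Fin n => p < q) = Finset.Iio q := by
    ext p; simp
  rw [this, Fin.card_Iio]

end INVB

open INVB in
theorem t_INVB : S_INVB := by
  intro n
  refine ⟨one n, fun w => inv_inv w, fun w => mul_rev w, fun w hw => ?_, fun w hw => adj w hw,
    rev_num n⟩
  have h1 := mul_rev w
  have h2 : w * Fin.revPerm ≠ 1 := by
    intro h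
    apply hw
    rw [mul_eq_one_iff_eq_inv] at h
    rw [h]
    ext x
    simp
  have h3 := inv_posi _ h2
  omega

end Pool.Agent.KIR.S6
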