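import Pool.Agent.KIR.S6.Stm

/-!
# Project KIR, section S6, piece OPA (helper12)
-/

set_option autoImplicit false

namespace Pool.Agent.KIR.S6

open MvPolynomial

theorem t_OPA (h1 : S_INVA) (h2 : S_INVB) : S_OPA := by
  intro n D ⟨hD1, hD⟩
  have hne : ∀ i j : Fin n, j.val = i.val + 1 → (X i - X j : R n) ≠ 0 := by
    intro i j hij h
    have := X_injective (R := ℤ) (sub_eq_zero.1 h)
    rw [this] at hij
    omega
  have c1 : ∀ (i j : Fin n), j.val = i.val + 1 → ∀ f, (X i - X j) * D (Equiv.swap i j) f =
      f - rename (⇑(Equiv.swap i j)) f := by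
    intro i j hij f
    have h3 : inv (Equiv.swap i j * Equiv.swap i j) < inv (Equiv.swap i j) := by
      have h4 := (h1 n 1 i j hij).1 (by
        rw [inv_one, Equiv.Perm.one_apply, Equiv.Perm.one_apply, Fin.lt_def]; omega)
      rw [mul_one] at h4
      rw [Equiv.swap_mul_self, h4]
      exact Nat.lt_succ_self _
    have h5 := hD (Equiv.swap i j) i j hij h3 f
    rw [Equiv.swap_mul_self, hD1] at h5
    exact h5
  have c2 : ∀ (w : P n) (i j : Fin n), j.val = i.val + 1 → inv (Equiv.swap i j * w) < inv w → ∀ f,
      D w f = D (Equiv.swap i j) (D (Equiv.swap i j * w) f) := by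
    intro w i j hij hlt f
    apply mul_left_cancel₀ (hne i j hij)
    rw [hD w i j hij hlt f, c1 i j hij]
  have a0 : ∀ (i j : Fin n), j.val = i.val + 1 → ∀ f g, D (Equiv.swap i j) (f + g) =
      D (Equiv.swap i j) f + D (Equiv.swap i j) g := by
    intro i j hij f g
    apply mul_left_cancel₀ (hne i j hij)
    rw [mul_add, c1 i j hij, c1 i j hij, c1 i j hij, map_add]
    ring
  have b0 : ∀ (i j : Fin n), j.val = i.val + 1 → ∀ (k : ℤ) f, D (Equiv.swap i j) (C k * f) =
      C k * D (Equiv.swap i j) f := by
    intro i j hij k f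
    apply mul_left_cancel₀ (hne i j hij)
    have := c1 i j hij f
    rw [c1 i j hij, map_mul, rename_C]
    linear_combination (-C k) * this
  have ind : ∀ (p : P n → Prop), p 1 → (∀ (w : P n) (i j : Fin n), j.val = i.val + 1 →
      inv (Equiv.swap i j * w) < inv w → p (Equiv.swap i j * w) → p w) → ∀ w, p w := by
    intro p hp1 hstep
    have key : ∀ m : ℕ, ∀ w : P n, inv w = m → p w := by
      intro m
      induction m using Nat.strong_induction_on with
      | _ m ih =>
        intro w hw
        by_cases hw1 : w = 1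
        · rw [hw1]; exact hp1
        · obtain ⟨i, j, hij, hlt⟩ := (h2 n).2.2.2.2.1 w hw1
          have h3 := (h1 n w i j hij).2 hlt
          have h4 : inv (Equiv.swap i j * w) < inv w := by omega
          exact hstep w i j hij h4 (ih _ (by omega) _ rfl)
    exact fun w => key _ w rfl
  have c3 : ∀ (w : P n) f g, D w (f + g) = D w f + D w g := by
    apply ind
    · intro f g; rw [hD1, hD1, hD1]
    · intro w i j hij hlt h f g
      rw [c2 w i j hij hlt, c2 w i j hij hlt f, c2 w i j hij hlt g, h, a0 i j hij]
  have c4 : ∀ (w : P n) (k : ℤ) f, D w (C k * f) = C k * D w f := by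
    apply ind
    · intro k f; rw [hD1, hD1]
    · intro w i j hij hlt h k f
      rw [c2 w i j hij hlt, c2 w i j hij hlt f, h, b0 i j hij]
  have c5 : ∀ (i j : Fin n), j.val = i.val + 1 → ∀ f,
      D (Equiv.swap i j) (D (Equiv.swap i j) f) = 0 := by
    intro i j hij f
    have e1 := c1 i j hij f
    have e2 := congrArg (rename (R := ℤ) (⇑(Equiv.swap i j))) e1
    have e0 : rename (⇑(Equiv.swap i j)) (rename (R := ℤ) (⇑(Equiv.swap i j)) f) = f := by
      rw [rename_rename]
      have : (⇑(Equiv.swap i j) ∘ ⇑(Equiv.swap i j)) = id := by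
        funext x; simp
      rw [this, rename_id_apply]
    rw [map_mul, map_sub, rename_X, rename_X, Equiv.swap_apply_left, Equiv.swap_apply_right,
      map_sub, e0] at e2
    have e3 : rename (⇑(Equiv.swap i j)) (D (Equiv.swap i j) f) = D (Equiv.swap i j) f := by
      apply mul_left_cancel₀ (hne i j hij)
      linear_combination (-1 : R n) * e2 - e1
    apply mul_left_cancel₀ (hne i j hij)
    rw [c1 i j hij, e3, sub_self, mul_zero]
  refine ⟨c1, c2, c3, c4, c5, ?_⟩
  intro w i j hij f
  constructor
  · intro hlt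
    have h3 := (h1 n w i j hij).1 hlt
    have h4 : Equiv.swap i j * (Equiv.swap i j * w) = w := by
      rw [← mul_assoc, Equiv.swap_mul_self, one_mul]
    have h5 := c2 (Equiv.swap i j * w) i j hij (by rw [h4]; omega) f
    rw [h4] at h5
    exact h5.symm
  · intro hlt
    have h3 := (h1 n w i j hij).2 hlt
    rw [c2 w i j hij (by omega) f, c5 i j hij]

end Pool.Agent.KIR.S6
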