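import Pool.Agent.KIR.S6.Stm

/-!
# Project KIR, section S6, piece OPB (backup by helper6)
-/

set_option autoImplicit false

namespace Pool.Agent.KIR.S6

open MvPolynomial

theorem t_OPB (h1 : S_INVA) (h2 : S_INVB) (h3 : S_OPA) : S_OPB := by
  intro n D hD u x
  obtain ⟨c1, c2, c3, c4, c5, c6⟩ := h3 n D hD
  have hz : ∀ w : P n, D w 0 = 0 := by
    intro w
    have := c3 w 0 0
    rw [add_zero] at this
    exact left_eq_add.1 this
  have hcase : ∀ (w : P n) (i j : Fin n), j.val = i.val + 1 →
      w⁻¹ i < w⁻¹ j ∨ w⁻¹ j < w⁻¹ i := by
    intro w i j hij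
    apply lt_or_gt_of_ne
    intro h
    have h' := (w⁻¹).injective h
    rw [h'] at hij
    omega
  have hstep : ∀ (w : P n) (i j : Fin n), j.val = i.val + 1 →
      inv (Equiv.swap i j * w) ≤ inv w + 1 := by
    intro w i j hij
    rcases hcase w i j hij with h | h
    · exact le_of_eq ((h1 n w i j hij).1 h)
    · have := (h1 n w i j hij).2 h
      omega
  have sub : ∀ m : ℕ, ∀ w : P n, inv w = m → inv (w * x) ≤ inv w + inv x := by
    intro m
    induction m using Nat.strong_induction_on with
    | _ m ih =>
      intro w hw
      by_cases hw1 : w = 1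
      · rw [hw1, one_mul]; exact Nat.le_add_left _ _
      · obtain ⟨i, j, hij, hlt⟩ := (h2 n).2.2.2.2.1 w hw1
        have h4 := (h1 n w i j hij).2 hlt
        have h5 := ih (inv (Equiv.swap i j * w)) (by omega) _ rfl
        have h6 := hstep ((Equiv.swap i j * w) * x) i j hij
        have h7 : Equiv.swap i j * ((Equiv.swap i j * w) * x) = w * x := by
          rw [← mul_assoc, ← mul_assoc, Equiv.swap_mul_self, one_mul]
        rw [h7] at h6
        omega
  have main : ∀ m : ℕ, ∀ u : P n, inv u = m →
      ((∀ f, D u (D x f) = 0) ∨ (∀ f, D u (D x f) = D (u * x) f)) ∧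
      (inv u + inv x = inv (u * x) → ∀ f, D u (D x f) = D (u * x) f) := by
    intro m
    induction m using Nat.strong_induction_on with
    | _ m ih =>
      intro u hu
      by_cases hu1 : u = 1
      · rw [hu1]
        have h4 : ∀ f, D 1 (D x f) = D (1 * x) f := by
          intro f; rw [hD.1, one_mul]
        exact ⟨Or.inr h4, fun _ => h4⟩
      · obtain ⟨i, j, hij, hlt⟩ := (h2 n).2.2.2.2.1 u hu1
        have h4 := (h1 n u i j hij).2 hlt
        have h5 := ih (inv (Equiv.swap i j * u)) (by omega) _ rfl
        have h6 := sub _ (Equiv.swap i j * u) rfl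
        have h7 : Equiv.swap i j * ((Equiv.swap i j * u) * x) = u * x := by
          rw [← mul_assoc, ← mul_assoc, Equiv.swap_mul_self, one_mul]
        have h8 : ∀ f, D u f = D (Equiv.swap i j) (D (Equiv.swap i j * u) f) :=
          c2 u i j hij (by omega)
        constructor
        · rcases h5.1 with h9 | h9
          · left
            intro f
            rw [h8, h9, hz]
          · rcases hcase ((Equiv.swap i j * u) * x) i j hij with h10 | h10
            · right
              intro f
              rw [h8, h9, (c6 _ i j hij f).1 h10, h7]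
            · left
              intro f
              rw [h8, h9, (c6 _ i j hij f).2 h10]
        · intro hadd f
          rcases hcase ((Equiv.swap i j * u) * x) i j hij with h10 | h10
          · have h11 := (h1 n _ i j hij).1 h10
            rw [h7] at h11
            rw [h8, h5.2 (by omega), (c6 _ i j hij f).1 h10, h7]
          · exfalso
            have h11 := (h1 n _ i j hij).2 h10
            rw [h7] at h11
            omega
  exact main _ u rfl

end Pool.Agent.KIR.S6
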