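import Pool.Agent.KIR.S6.Stm

/-!
# Project KIR, section S6, piece OPC (helper12)
-/

set_option autoImplicit false

namespace Pool.Agent.KIR.S6

open MvPolynomial

theorem t_OPC (h1 : S_INVA) (h2 : S_INVB) (h3 : S_OPA) : S_OPC := by
  intro n D hD l
  obtain ⟨c1, c2, c3, c4, c5, c6⟩ := h3 n D hD
  have hz : ∀ w : P n, D w 0 = 0 := by
    intro w
    have := c3 w 0 0
    rw [add_zero] at this
    exact left_eq_add.1 this
  induction l with
  | nil =>
    intro _
    right
    exact ⟨1, (h2 n).1, fun f => (hD.1 f).symm⟩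
  | cons x l ih =>
    intro hadj
    have hx : x.2.val = x.1.val + 1 := hadj x (List.mem_cons_self ..)
    have hl : Adj l := fun y hy => hadj y (List.mem_cons_of_mem _ hy)
    rcases ih hl with h | ⟨s, hs, h⟩
    · left
      intro f
      change D (Equiv.swap x.1 x.2) (dl D l f) = 0
      rw [h f, hz]
    · have hne : s⁻¹ x.1 ≠ s⁻¹ x.2 := by
        intro h'
        have := (s⁻¹).injective h'
        rw [this] at hx
        omega
      rcases lt_or_gt_of_ne hne with hlt | hlt
      · right
        refine ⟨Equiv.swap x.1 x.2 * s, ?_, fun f => ?_⟩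
        · rw [(h1 n s x.1 x.2 hx).1 hlt, hs, List.length_cons]
        · change D (Equiv.swap x.1 x.2) (dl D l f) = _
          rw [h f]
          exact (c6 s x.1 x.2 hx f).1 hlt
      · left
        intro f
        change D (Equiv.swap x.1 x.2) (dl D l f) = 0
        rw [h f]
        exact (c6 s x.1 x.2 hx f).2 hlt

end Pool.Agent.KIR.S6
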