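import Pool.Agent.KIR.S6.Stm

set_option autoImplicit false

namespace Pool.Agent.KIR.S6

open MvPolynomial

theorem t_PAIR : S_INVB → S_OPB → S_VAN → S_TOPD → S_GBV → S_PAIR := by
  intro hI hO hV hT hG n D hD b hb
  obtain ⟨-, hinv, hrev, hlt, -, -⟩ := hI n
  have h1 : ∀ s : P n, eval b (D s (gb b)) = if s = Fin.revPerm then 1 else 0 := by
    intro s
    by_cases hs : s = Fin.revPerm
    · rw [if_pos hs, hs, hT n D hD b, map_one]
    · rw [if_neg hs]
      have h := hV n D hD b hb s 1 (gb b) (by
        intro π hπ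
        rw [one_mul]
        apply hG
        rintro rfl
        exact absurd (hlt s hs) (not_lt.mpr hπ))
      simpa using h
  refine ⟨h1, ?_⟩
  intro v v'
  obtain ⟨hz, hadd⟩ := hO n D hD v' (v⁻¹ * Fin.revPerm)
  by_cases hv : v' = v
  · subst hv
    rw [if_pos rfl, hadd, mul_inv_cancel_left, hT n D hD b, map_one]
    rw [mul_inv_cancel_left]
    have := hrev v'⁻¹
    rw [hinv] at this
    omega
  · rw [if_neg hv]
    rcases hz with h0 | h0
    · rw [h0, map_zero]
    · rw [h0, h1, if_neg]
      intro h
      apply hv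
      rw [← mul_assoc, mul_eq_right, mul_inv_eq_one] at h
      exact h

end Pool.Agent.KIR.S6
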