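import Pool.Agent.KIR.S6.Stm

/-! # Piece SCH of project KIR, section S6 (helper81) -/

set_option autoImplicit false

namespace Pool.Agent.KIR.S6

open MvPolynomial

theorem t_SCH : S_INVA → S_OPA → S_SCH := by
  intro _ hO n D hD
  obtain ⟨h1, -, -, -, -, h6⟩ := hO n D hD
  constructor
  · intro b a
    show ((eval a (D ((Fin.revPerm : P n)⁻¹ * Fin.revPerm) (gb b)) : ℤ) : ℝ) = _
    rw [inv_mul_cancel, hD.1, gb, map_prod, Int.cast_prod]
    refine Finset.prod_congr rfl fun s _ => ?_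
    rw [map_sub, eval_X, eval_C, Int.cast_sub]
  · intro u i j hij hu b a ha
    show ((eval a (D ((u * Equiv.swap i j)⁻¹ * Fin.revPerm) (gb b)) : ℤ) : ℝ) =
      (((eval a (D (u⁻¹ * Fin.revPerm) (gb b)) : ℤ) : ℝ) -
        ((eval (a ∘ Equiv.swap i j) (D (u⁻¹ * Fin.revPerm) (gb b)) : ℤ) : ℝ)) /
          ((a i : ℝ) - a j)
    have e1 : (u * Equiv.swap i j)⁻¹ * Fin.revPerm = Equiv.swap i j * (u⁻¹ * Fin.revPerm) := by
      rw [mul_inv_rev, Equiv.swap_inv, mul_assoc]
    set x : P n := u⁻¹ * Fin.revPerm with hx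
    have e2 : x⁻¹ i < x⁻¹ j := by
      have e3 : ∀ k, x⁻¹ k = Fin.rev (u k) := by
        intro k
        rw [hx, mul_inv_rev, inv_inv]
        rfl
      rw [e3, e3]
      exact Fin.rev_lt_rev.2 hu
    have e4 := (h6 x i j hij (gb b)).1 e2
    have e5 := congrArg (eval a) (h1 i j hij (D x (gb b)))
    rw [e4, map_mul, map_sub, map_sub, eval_X, eval_X, eval_rename] at e5
    rw [e1]
    have hne : (a i : ℝ) - a j ≠ 0 := by
      rw [sub_ne_zero]
      intro h
      have h7 : a i = a j := by exact_mod_cast h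
      have h8 := congrArg Fin.val (ha h7)
      omega
    rw [eq_div_iff hne]
    have e6 := congrArg (Int.cast : ℤ → ℝ) e5
    push_cast at e6
    rw [mul_comm]
    exact e6

end Pool.Agent.KIR.S6
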