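import Pool.Agent.KIR.S6.Stm

/-!
# Project KIR, section S6, piece TOP (helper72): the top divided difference of the staircase product
-/

set_option autoImplicit false

namespace Pool.Agent.KIR.S6

open MvPolynomial

namespace TOP

variable {n : ℕ}

/-- the product with column lengths `c` -/
noncomputable def Q (b : Fin n → ℤ) (c : Fin n → ℕ) : R n :=
  ∏ i : Fin n, ∏ j : Fin n, if (j : ℕ) < c i then (X i - C (b j)) else 1

theorem Q_zero (b : Fin n → ℤ) : Q b (fun _ => 0) = 1 := by
  unfold Q
  refine Finset.prod_eq_one fun i _ => Finset.prod_eq_one fun j _ => ?_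
  exact if_neg (Nat.not_lt_zero _)

theorem Q_gb (b : Fin n → ℤ) : Q b (fun i => n - 1 - (i : ℕ)) = gb b := by
  unfold Q gb
  rw [Finset.prod_filter, Fintype.prod_prod_type]
  refine Finset.prod_congr rfl fun i _ => Finset.prod_congr rfl fun j _ => ?_
  beta_reduce
  by_cases h : (i : ℕ) + j + 1 < n
  · rw [if_pos h, if_pos (by omega)]
  · rw [if_neg h, if_neg (by omega)]

/-- invariance under the transposition of two equal columns -/
theorem Q_inv (b : Fin n → ℤ) (c : Fin n → ℕ) (i j : Fin n) (h : c i = c j) :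
    rename (⇑(Equiv.swap i j)) (Q b c) = Q b c := by
  have hc : ∀ k, c (Equiv.swap i j k) = c k := by
    intro k
    rcases eq_or_ne k i with rfl | h1
    · rw [Equiv.swap_apply_left, h]
    · rcases eq_or_ne k j with rfl | h2
      · rw [Equiv.swap_apply_right, h]
      · rw [Equiv.swap_apply_of_ne_of_ne h1 h2]
  unfold Q
  rw [map_prod]
  rw [← Equiv.prod_comp (Equiv.swap i j)
    (fun k => ∏ l : Fin n, if (l : ℕ) < c k then (X k - C (b l) : R n) else 1)]
  refine Finset.prod_congr rfl fun k _ => ?_
  rw [map_prod]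
  refine Finset.prod_congr rfl fun l _ => ?_
  rw [hc k]
  split_ifs
  · rw [map_sub, rename_X, rename_C]
  · rw [map_one]

/-- removing the last box of a column -/
theorem Q_rem (b : Fin n → ℤ) (c : Fin n → ℕ) (i : Fin n) (m : Fin n) (h : c i = m + 1) :
    Q b c = (X i - C (b m)) * Q b (Function.update c i (m : ℕ)) := by
  unfold Q
  rw [← Finset.mul_prod_erase Finset.univ _ (Finset.mem_univ i),
    ← Finset.mul_prod_erase Finset.univ (fun i' => ∏ j : Fin n,
      if (j : ℕ) < Function.update c i (m : ℕ) i' then (X i' - C (b j) : R n) else 1)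
      (Finset.mem_univ i), ← mul_assoc]
  congr 1
  · rw [Function.update_self, h, ← Finset.mul_prod_erase Finset.univ _ (Finset.mem_univ m),
      ← Finset.mul_prod_erase Finset.univ
        (fun j : Fin n => if (j : ℕ) < (m : ℕ) then (X i - C (b j) : R n) else 1)
        (Finset.mem_univ m), if_pos (Nat.lt_succ_self _), if_neg (lt_irrefl _), one_mul]
    congr 1
    refine Finset.prod_congr rfl fun j hj => ?_
    have hne : (j : ℕ) ≠ m := fun h => (Finset.ne_of_mem_erase hj) (Fin.ext h)
    by_cases h1 : (j : ℕ) < m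
    · rw [if_pos h1, if_pos (by omega)]
    · rw [if_neg h1, if_neg (by omega)]
  · refine Finset.prod_congr rfl fun k hk => ?_
    rw [Function.update_of_ne (Finset.ne_of_mem_erase hk)]

/-- one letter -/
theorem step (hA : S_OPA) {D : P n → R n → R n} (hD : IsD D) (b : Fin n → ℤ) (c : Fin n → ℕ)
    (i j : Fin n) (hij : j.val = i.val + 1) (h : c i = c j + 1) (hc : c j < n) :
    D (Equiv.swap i j) (Q b c) = Q b (Function.update c i (c j)) := by
  have hne : i ≠ j := fun h => by rw [h] at hij; omega
  have h1 := (hA n D hD).1 i j hij (Q b c)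
  have h2 := Q_rem b c i ⟨c j, hc⟩ h
  have h3 : rename (⇑(Equiv.swap i j)) (Q b (Function.update c i (c j))) =
      Q b (Function.update c i (c j)) := by
    apply Q_inv
    rw [Function.update_self, Function.update_of_ne hne.symm]
  simp only at h2
  have h4 : (X i - X j : R n) * D (Equiv.swap i j) (Q b c) =
      (X i - X j) * Q b (Function.update c i (c j)) := by
    rw [h1]
    nth_rw 1 2 [h2]
    rw [map_mul, h3, map_sub, rename_X, rename_C, Equiv.swap_apply_left]
    ring
  have h5 : (X i - X j : R n) ≠ 0 := sub_ne_zero.2 fun h => hne (X_injective h)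
  exact mul_left_cancel₀ h5 h4

/-- reached by a word of length `k` -/
def Reach (D : P n → R n → R n) (b : Fin n → ℤ) (c : Fin n → ℕ) (k : ℕ) : Prop :=
  ∃ l : List (Fin n × Fin n), Adj l ∧ l.length = k ∧ dl D l (gb b) = Q b c

theorem reach_step (hA : S_OPA) {D : P n → R n → R n} (hD : IsD D) {b : Fin n → ℤ}
    {c : Fin n → ℕ} {k : ℕ} (hr : Reach D b c k)
    (i j : Fin n) (hij : j.val = i.val + 1) (h : c i = c j + 1) (hc : c j < n) :
    Reach D b (Function.update c i (c j)) (k + 1) := by
  obtain ⟨l, h1, h2, h3⟩ := hr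
  refine ⟨(i, j) :: l, ?_, by rw [List.length_cons, h2], ?_⟩
  · intro x hx
    rcases List.mem_cons.1 hx with rfl | hx
    · exact hij
    · exact h1 x hx
  · show D (Equiv.swap i j) (dl D l (gb b)) = _
    rw [h3]
    exact step hA hD b c i j hij h hc

theorem round (hA : S_OPA) {D : P n → R n → R n} (hD : IsD D) {b : Fin n → ℤ} {k m : ℕ}
    (hm : m + 1 ≤ n) (hr : Reach D b (fun i => m - (i : ℕ)) k) :
    Reach D b (fun i => m - 1 - (i : ℕ)) (k + m) := by
  have key : ∀ r ≤ m, Reach D b (fun i => if (i : ℕ) < r then m - 1 - (i : ℕ) else m - (i : ℕ))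
      (k + r) := by
    intro r
    induction r with
    | zero =>
      intro _
      simpa using hr
    | succ r ih =>
      intro hrm
      have h1 := ih (by omega)
      have hrn : r < n := by omega
      have hrn' : r + 1 < n := by omega
      have h2 := reach_step hA hD h1 ⟨r, hrn⟩ ⟨r + 1, hrn'⟩ rfl
        (by simp only [lt_irrefl, if_false]; rw [if_neg (by omega)]; omega)
        (by simp only; rw [if_neg (by omega)]; omega)
      have e : Function.update (fun i : Fin n => if (i : ℕ) < r then m - 1 - (i : ℕ) else m - (i : ℕ))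
          ⟨r, hrn⟩ (if ((⟨r + 1, hrn'⟩ : Fin n) : ℕ) < r then m - 1 - ((⟨r + 1, hrn'⟩ : Fin n) : ℕ)
            else m - ((⟨r + 1, hrn'⟩ : Fin n) : ℕ)) =
          fun i : Fin n => if (i : ℕ) < r + 1 then m - 1 - (i : ℕ) else m - (i : ℕ) := by
        funext i
        rcases eq_or_ne i ⟨r, hrn⟩ with rfl | hi
        · rw [Function.update_self]
          simp only
          rw [if_neg (by omega), if_pos (by omega)]
          omega
        · rw [Function.update_of_ne hi]
          have hi' : (i : ℕ) ≠ r := fun h => hi (Fin.ext h)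
          by_cases h3 : (i : ℕ) < r
          · rw [if_pos h3, if_pos (by omega)]
          · rw [if_neg h3, if_neg (by omega)]
      rw [e] at h2
      exact h2
  have h1 := key m le_rfl
  have e : (fun i : Fin n => if (i : ℕ) < m then m - 1 - (i : ℕ) else m - (i : ℕ)) =
      fun i : Fin n => m - 1 - (i : ℕ) := by
    funext i
    split_ifs
    · rfl
    · omega
  rwa [e] at h1

theorem all (hA : S_OPA) {D : P n → R n → R n} (hD : IsD D) {b : Fin n → ℤ} (m : ℕ) :
    ∀ k, m ≤ n → Reach D b (fun i => m - 1 - (i : ℕ)) k →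
      Reach D b (fun _ => 0) (k + ∑ i ∈ Finset.range m, i) := by
  induction m with
  | zero =>
    intro k _ h
    simpa using h
  | succ m ih =>
    intro k hm h
    have h1 := round hA hD (k := k) hm (by simpa using h)
    have h2 := ih (k + m) (by omega) h1
    rw [Finset.sum_range_succ]
    have e : k + (∑ i ∈ Finset.range m, i + m) = k + m + ∑ i ∈ Finset.range m, i := by ring
    rw [e]
    exact h2

end TOP

theorem t_TOP (hI : S_INVB) (hA : S_OPA) (hC : S_OPC) : S_TOPD := by
  intro n D hD b
  have h0 : TOP.Reach D b (fun i => n - 1 - (i : ℕ)) 0 :=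
    ⟨[], by intro x hx; simp at hx, rfl, (TOP.Q_gb b).symm⟩
  obtain ⟨l, h1, h2, h3⟩ := TOP.all hA hD n 0 le_rfl h0
  rw [TOP.Q_zero] at h3
  rw [zero_add, Finset.sum_range_id] at h2
  rcases hC n D hD l h1 with h4 | ⟨s, hs, h4⟩
  · rw [h4] at h3
    exact absurd h3 zero_ne_one
  · have h5 : s = Fin.revPerm := by
      by_contra hne
      have h6 := (hI n).2.2.2.1 s hne
      rw [hs, h2, (hI n).2.2.2.2.2] at h6
      exact lt_irrefl _ h6
    rw [← h5, ← h4, h3]

end Pool.Agent.KIR.S6
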