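import Pool.Agent.KIR.S6.Stm

/-!
Piece VAN of project KIR, section S6 (helper45).
-/

set_option autoImplicit false

namespace Pool.Agent.KIR.S6

open MvPolynomial

theorem t_VAN : S_INVA → S_INVB → S_OPA → S_VAN := by
  intro hA hB hO n D hD b hb
  have hone := hD.1
  obtain ⟨o1, o2, -⟩ := hO n D hD
  obtain ⟨b1, -, -, -, b5, -⟩ := hB n
  have hle : ∀ (π : P n) (i j : Fin n), j.val = i.val + 1 → inv (Equiv.swap i j * π) ≤ inv π + 1 := by
    intro π i j hij
    obtain ⟨a1, a2⟩ := hA n π i j hij
    have hne : π⁻¹ i ≠ π⁻¹ j := by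
      intro h
      have := π⁻¹.injective h
      rw [this] at hij
      omega
    rcases lt_or_gt_of_ne hne with h | h
    · exact (a1 h).le
    · have := a2 h
      omega
  have key : ∀ (k : ℕ) (s ρ : P n) (f : R n), inv s = k →
      (∀ π : P n, inv π ≤ inv s → eval (b ∘ ⇑(ρ * π)) f = 0) → eval (b ∘ ⇑ρ) (D s f) = 0 := by
    intro k
    induction k using Nat.strong_induction_on with
    | _ k ih =>
      intro s ρ f hk h
      by_cases hs : s = 1
      · subst hs
        rw [hone]
        have := h 1 le_rfl
        rwa [mul_one] at this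
      · obtain ⟨i, j, hij, hlt⟩ := b5 s hs
        have hinv := (hA n s i j hij).2 hlt
        have hlt2 : inv (Equiv.swap i j * s) < inv s := by omega
        rw [o2 s i j hij hlt2]
        have h1 := congrArg (eval (b ∘ ⇑ρ)) (o1 i j hij (D (Equiv.swap i j * s) f))
        rw [map_mul, map_sub, map_sub, eval_X, eval_X, eval_rename] at h1
        have h2 : eval (b ∘ ⇑ρ) (D (Equiv.swap i j * s) f) = 0 :=
          ih _ (by omega) (Equiv.swap i j * s) ρ f rfl (fun π hπ => h π (by omega))
        have h3 : eval ((b ∘ ⇑ρ) ∘ ⇑(Equiv.swap i j)) (D (Equiv.swap i j * s) f) = 0 := by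
          have h4 : (b ∘ ⇑ρ) ∘ ⇑(Equiv.swap i j) = b ∘ ⇑(ρ * Equiv.swap i j) := rfl
          rw [h4]
          refine ih _ (by omega) (Equiv.swap i j * s) (ρ * Equiv.swap i j) f rfl (fun π hπ => ?_)
          rw [mul_assoc]
          refine h (Equiv.swap i j * π) ?_
          have := hle π i j hij
          omega
        rw [h2, h3, sub_zero] at h1
        rcases mul_eq_zero.1 h1 with h5 | h5
        · exfalso
          have h6 : b (ρ i) = b (ρ j) := sub_eq_zero.1 h5
          have h7 := ρ.injective (hb h6)
          rw [h7] at hij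
          omega
        · exact h5
  intro s ρ f h
  exact key _ s ρ f rfl h

end Pool.Agent.KIR.S6
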