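import Pool.Agent.KIR.S6.Stm

/-!
# Project KIR, section S6, piece INVA (helper12)
-/

set_option autoImplicit false

namespace Pool.Agent.KIR.S6

namespace INVA

theorem swap_lt {n : ℕ} {i j : Fin n} (hij : j.val = i.val + 1) (x y : Fin n)
    (h1 : ¬ (x = i ∧ y = j)) (h2 : ¬ (x = j ∧ y = i)) :
    Equiv.swap i j x < Equiv.swap i j y ↔ x < y := by
  rw [Equiv.swap_apply_def, Equiv.swap_apply_def]
  simp only [Fin.ext_iff] at h1 h2
  split_ifs with a b c d e f g k <;> simp only [Fin.ext_iff, Fin.lt_def] at * <;> omega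

theorem up {n : ℕ} (w : P n) (i j : Fin n) (hij : j.val = i.val + 1) (h : w⁻¹ i < w⁻¹ j) :
    inv (Equiv.swap i j * w) = inv w + 1 := by
  have hij' : i < j := by rw [Fin.lt_def]; omega
  have hw : ∀ x, w (w⁻¹ x) = x := fun x => Equiv.apply_symm_apply w x
  have hw' : ∀ x, w⁻¹ (w x) = x := fun x => Equiv.symm_apply_apply w x
  have hnot : (w⁻¹ i, w⁻¹ j) ∉ Finset.univ.filter
      (fun p : Fin n × Fin n => p.1 < p.2 ∧ w p.2 < w p.1) := by
    rw [Finset.mem_filter]
    rintro ⟨-, -, h'⟩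
    simp only [hw] at h'
    exact lt_asymm h' hij'
  rw [inv, inv, ← Finset.card_insert_of_notMem hnot]
  congr 1
  ext ⟨p, q⟩
  rw [Finset.mem_insert, Finset.mem_filter, Finset.mem_filter]
  simp only [Finset.mem_univ, true_and, Equiv.Perm.mul_apply]
  by_cases hpq : (p, q) = (w⁻¹ i, w⁻¹ j)
  · rw [Prod.mk.injEq] at hpq
    obtain ⟨rfl, rfl⟩ := hpq
    simp only [hw, Equiv.swap_apply_left, Equiv.swap_apply_right, true_or, iff_true]
    exact ⟨h, hij'⟩
  · constructor
    · rintro ⟨hlt, h'⟩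
      right
      refine ⟨hlt, ?_⟩
      rwa [swap_lt hij] at h'
      · rintro ⟨hq, hp⟩
        rw [← hq, ← hp, hw', hw'] at h
        exact lt_asymm h hlt
      · rintro ⟨hq, hp⟩
        apply hpq
        rw [← hq, ← hp, hw', hw']
    · rintro (h' | ⟨hlt, h'⟩)
      · exact absurd h' hpq
      · refine ⟨hlt, ?_⟩
        rw [swap_lt hij]
        · exact h'
        · rintro ⟨hq, hp⟩
          rw [← hq, ← hp, hw', hw'] at h
          exact lt_asymm h hlt
        · rintro ⟨hq, hp⟩
          apply hpq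
          rw [← hq, ← hp, hw', hw']

end INVA

open INVA in
theorem t_INVA : S_INVA := by
  intro n w i j hij
  refine ⟨up w i j hij, fun h => ?_⟩
  have h1 := up (Equiv.swap i j * w) i j hij (by
    rw [mul_inv_rev, Equiv.swap_inv, Equiv.Perm.mul_apply, Equiv.Perm.mul_apply,
      Equiv.swap_apply_left, Equiv.swap_apply_right]
    exact h)
  rw [← mul_assoc, Equiv.swap_mul_self, one_mul] at h1
  exact h1

end Pool.Agent.KIR.S6
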