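import Pool.Agent.KIR.S6.ASM
import Pool.Agent.KIR.S6.DEN
import Pool.Agent.KIR.S6.DWE
import Pool.Agent.KIR.S6.FCV
import Pool.Agent.KIR.S6.GZ
import Pool.Agent.KIR.S6.GBV
import Pool.Agent.KIR.S6.INVA
import Pool.Agent.KIR.S6.INVB
import Pool.Agent.KIR.S6.OPA
import Pool.Agent.KIR.S6.OPB
import Pool.Agent.KIR.S6.OPC
import Pool.Agent.KIR.S6.PAIR
import Pool.Agent.KIR.S6.SCH
import Pool.Agent.KIR.S6.TOP
import Pool.Agent.KIR.S6.VAN

/-! # Project KIR, section S6: assembly of all pieces -/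

set_option autoImplicit false

namespace Pool.Agent.KIR.S6

theorem t_ALG : Pool.Agent.KIR.S_ALG := by
  have hA : S_OPA := t_OPA t_INVA t_INVB
  have hB : S_OPB := t_OPB t_INVA t_INVB hA
  have hC : S_OPC := t_OPC t_INVA t_INVB hA
  have hV : S_VAN := t_VAN t_INVA t_INVB hA
  have hT : S_TOPD := t_TOP t_INVB hA hC
  have hP : S_PAIR := t_PAIR t_INVB hB hV hT t_GBV
  exact alg hA hB hC hV t_FCV hP (t_SCH t_INVA hA) (t_DWE hA) t_DEN t_GZ

end Pool.Agent.KIR.S6
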