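import Pool.Agent.KIR.Defs

/-!
# Project KIR, section S6 (lead helper66): statements of the pieces (NOT results)

From the geometric identity `S_GEO` to the frozen statement. Everything is elementary: divided
differences in `ℤ[x_0, …, x_(n-1)]`. The operators `D w` are only known by the hypotheses `IsD`
of the frozen statement; no braid relations are needed because `D` is given for all `w`.
-/

set_option autoImplicit false

namespace Pool.Agent.KIR.S6

open MvPolynomial

/-- the polynomial ring -/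
abbrev R (n : ℕ) := MvPolynomial (Fin n) ℤ

/-- the permutations -/
abbrev P (n : ℕ) := Equiv.Perm (Fin n)

/-- the number of inversions, literally as in the frozen statement -/
def inv {n : ℕ} (w : P n) : ℕ :=
  (Finset.univ.filter (fun p : Fin n × Fin n => p.1 < p.2 ∧ w p.2 < w p.1)).card

/-- the hypotheses of the frozen statement on `D` -/
def IsD {n : ℕ} (D : P n → R n → R n) : Prop :=
  (∀ f, D 1 f = f) ∧
  ∀ (w : P n) (i j : Fin n), j.val = i.val + 1 → inv (Equiv.swap i j * w) < inv w → ∀ f,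
    (X i - X j) * D w f = D (Equiv.swap i j * w) f
      - rename (⇑(Equiv.swap i j)) (D (Equiv.swap i j * w) f)

/-- a word of divided differences (the last letter is applied first) -/
noncomputable def dl {n : ℕ} (D : P n → R n → R n) (l : List (Fin n × Fin n)) (f : R n) : R n :=
  l.foldr (fun x g => D (Equiv.swap x.1 x.2) g) f

/-- `∏ (x_i - b_j)` over `i + j + 1 < n` -/
noncomputable def gb {n : ℕ} (b : Fin n → ℤ) : R n :=
  ∏ s ∈ Finset.univ.filter (fun s : Fin n × Fin n => (s.1 : ℕ) + s.2 + 1 < n), (X s.1 - C (b s.2))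

/-- the product of `S_GEO` as a polynomial in `a'` -/
noncomputable def Fc {n : ℕ} (c : Fin n → Option (Fin (n + n))) (b : Fin n → ℤ) : R n :=
  ∏ s ∈ Zb c, (X s.1 - C (Fin.append b (fun _ => (0 : ℤ)) s.2))

/-! ## Inversions -/

/-- INVA (60 lines). Adjacent transpositions on the left change the number of inversions by one:
`swap i j * w` exchanges the VALUES `i, j = i + 1`. PROOF: the pair of positions
`{w⁻¹ i, w⁻¹ j}` changes its state, for all other pairs `(p, q)` of positions `w q < w p` iff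
`s (w q) < s (w p)` (adjacent values). So for `w⁻¹ i < w⁻¹ j` the inversions of `s w` are those of `w`
and one more (`Finset.card_insert`); the other case by exchanging `w` and `s w`. -/
def S_INVA : Prop := ∀ (n : ℕ) (w : P n) (i j : Fin n), j.val = i.val + 1 →
  (w⁻¹ i < w⁻¹ j → inv (Equiv.swap i j * w) = inv w + 1) ∧
  (w⁻¹ j < w⁻¹ i → inv w = inv (Equiv.swap i j * w) + 1)

/-- INVB (80 lines). `inv w = inv w⁻¹` by `(p, q) ↦ (w q, w p)`; the inversions of `w * rev` are, by
`(p, q) ↦ (rev q, rev p)`, the non-inversions of `w`, and all pairs `p < q` are inversions of `rev`.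
If `w ≠ rev`, some pair `p < q` is not an inversion (a decreasing permutation is `rev`, e.g.
because then `w * rev` is strictly increasing, hence `1`). If `w ≠ 1`, some adjacent values are
in the wrong order (otherwise `w⁻¹` is increasing, `w = 1`). -/
def S_INVB : Prop := ∀ (n : ℕ),
  inv (1 : P n) = 0 ∧ (∀ w : P n, inv w⁻¹ = inv w) ∧
  (∀ w : P n, inv (w * Fin.revPerm) + inv w = inv (Fin.revPerm : P n)) ∧
  (∀ w : P n, w ≠ Fin.revPerm → inv w < inv (Fin.revPerm : P n)) ∧
  (∀ w : P n, w ≠ 1 → ∃ i j : Fin n, j.val = i.val + 1 ∧ w⁻¹ j < w⁻¹ i) ∧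
  inv (Fin.revPerm : P n) = n * (n - 1) / 2

/-! ## The operators -/

/-- OPA (80 lines; `theorem t_OPA : S_INVA → S_INVB → S_OPA`). Elementary facts. (1) `D (swap i j)` is
the divided difference (hypothesis for `w = swap i j`, `swap * swap = 1`, `inv 1 = 0 < inv (swap i j)`
by INVA for `w = 1`). (2) cancel `X i - X j ≠ 0` (domain). (3) linearity: for `swap i j` from (1); for
`w` by strong induction on `inv w` with (2) and the last-but-one clause of INVB. (4) by (1):
`f - s f` is antisymmetric; `(X i - X j) * D s (D s f) = D s f - rename s (D s f)` and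
`rename s (D s f) = D s f` because
`(X j - X i) * rename s (D s f) = rename s f - f`. (5) from (2), (4) and INVA. -/
def S_OPA : Prop := ∀ (n : ℕ) (D : P n → R n → R n), IsD D →
  (∀ (i j : Fin n), j.val = i.val + 1 → ∀ f, (X i - X j) * D (Equiv.swap i j) f =
    f - rename (⇑(Equiv.swap i j)) f) ∧
  (∀ (w : P n) (i j : Fin n), j.val = i.val + 1 → inv (Equiv.swap i j * w) < inv w → ∀ f,
    D w f = D (Equiv.swap i j) (D (Equiv.swap i j * w) f)) ∧
  (∀ (w : P n) f g, D w (f + g) = D w f + D w g) ∧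
  (∀ (w : P n) (k : ℤ) f, D w (C k * f) = C k * D w f) ∧
  (∀ (i j : Fin n), j.val = i.val + 1 → ∀ f, D (Equiv.swap i j) (D (Equiv.swap i j) f) = 0) ∧
  (∀ (w : P n) (i j : Fin n), j.val = i.val + 1 → ∀ f, (w⁻¹ i < w⁻¹ j →
    D (Equiv.swap i j) (D w f) = D (Equiv.swap i j * w) f) ∧
    (w⁻¹ j < w⁻¹ i → D (Equiv.swap i j) (D w f) = 0))

/-- OPB (60 lines; `theorem t_OPB : S_INVA → S_INVB → S_OPA → S_OPB`). Composition. PROOF: induction on
`inv u`; `u = 1` trivial; otherwise `u = s u'` with `inv u' < inv u` (INVB, INVA),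
`D u (D x f) = D s (D u' (D x f))`, which is `D s 0 = 0` or `D s (D (u' x) f)`, which is `0` or
`D (s u' x) f` by the last clause of OPA. If the lengths add up: `inv (u x) ≤ inv (u' x) + 1` and
`inv (u' x) ≤ inv u' + inv x` (an extra induction with INVA), so `inv (u' x) = inv u' + inv x` and the
step is upwards. -/
def S_OPB : Prop := ∀ (n : ℕ) (D : P n → R n → R n), IsD D → ∀ u x : P n,
  ((∀ f, D u (D x f) = 0) ∨ (∀ f, D u (D x f) = D (u * x) f)) ∧
  (inv u + inv x = inv (u * x) → ∀ f, D u (D x f) = D (u * x) f)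

/-- OPC (30 lines; `theorem t_OPC : S_INVA → S_INVB → S_OPA → S_OPC`). Words: every word of divided
differences is `0` or `D s` with `inv s` the length of the word. PROOF: induction on `l` with the last
clause of OPA and INVA. -/
def S_OPC : Prop := ∀ (n : ℕ) (D : P n → R n → R n), IsD D → ∀ l : List (Fin n × Fin n), Adj l →
  (∀ f, dl D l f = 0) ∨ ∃ s : P n, inv s = l.length ∧ ∀ f, dl D l f = D s f

/-! ## Values -/

/-- VAN (60 lines; `theorem t_VAN : S_INVA → S_INVB → S_OPA → S_VAN`). PROOF: strong induction on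
`inv s`. `s = 1`: `π = 1`. Otherwise `D s f = D (swap i j) h` with `h = D s' f`, `s' = swap i j * s`,
`inv s = inv s' + 1`, and `(b (ρ i) - b (ρ j)) * eval (b ∘ ρ) (D (swap i j) h) =
eval (b ∘ ρ) h - eval (b ∘ ρ ∘ swap i j) h` (`eval_rename`). Both are `0` by induction: for the second
one use `inv (swap i j * π) ≤ inv π + 1`. -/
def S_VAN : Prop := ∀ (n : ℕ) (D : P n → R n → R n), IsD D → ∀ (b : Fin n → ℤ),
  Function.Injective b → ∀ (s ρ : P n) (f : R n),
    (∀ π : P n, inv π ≤ inv s → eval (b ∘ ⇑(ρ * π)) f = 0) → eval (b ∘ ⇑ρ) (D s f) = 0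

/-- TOP (120 lines; `theorem t_TOP : S_INVB → S_OPA → S_OPC → S_TOPD`). PROOF: for `c : Fin n → ℕ` let
`Q c = ∏ i, ∏ j with j < c i, (X i - C (b j))`. If `c i = c j + 1`, `j = i + 1`, then
`D (swap i j) (Q c) = Q (c - e_i)`: `Q c = (X i - C (b (c j))) * H` with `H` invariant under
`rename (swap i j)`, so `Q c - rename s (Q c) = (X i - X j) * H` and `H = Q (c - e_i)` (use clause (1) of
OPA and cancel). Starting from the staircase `c i = n - 1 - i` (`Q c = gb b`) apply the letters
`0, 1, …, n-2`, then `0, 1, …, n-3`, and so on, finally `0`: all `c` which occur have `c i = c j + 1` at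
the letter used, and the last one is `c = 0`, `Q 0 = 1`. The word has length `n (n - 1) / 2`, so by OPC
it is `D s` with `inv s = n (n-1)/2` (it is not zero), so `s = rev` by INVB. (Formally: for
`m ≤ n` and the staircase `c i = m - 1 - i` (truncated subtraction) one round of letters
`0, …, m-2` leads to the staircase `m - 2 - i`; inside a round after the letters `0, …, r-1` one has
`c i = m - 2 - i` for `i < r` and `m - 1 - i` for `i ≥ r`.) -/
def S_TOPD : Prop := ∀ (n : ℕ) (D : P n → R n → R n), IsD D → ∀ (b : Fin n → ℤ),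
  D Fin.revPerm (gb b) = 1

/-- GBV (60 lines). PROOF: `eval (b ∘ π) (gb b) = ∏ (b (π i) - b j)` over `i + j + 1 < n`; if it is not
`0` then `π i + i + 1 ≥ n` for all `i` (take `j = π i`), so `π i ≥ rev i`; as the sums over `i` are
equal, `π = rev`. -/
def S_GBV : Prop := ∀ (n : ℕ) (b : Fin n → ℤ) (π : P n), π ≠ Fin.revPerm →
  eval (b ∘ ⇑π) (gb b) = 0

/-- FCV (100 lines). PROOF: if `pos (c i) ≤ n - 1 - i` for all `i`, then equality holds for all `i`
(`Dec c`: `pos ∘ c` is strictly decreasing as no `c i` is `none`; so `pos (c i) ≥ n - 1 - i`), and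
`Zb c` is the set of the `(i, j)`, `j < n - 1 - i`, in the first block, so `Fc c b = gb b` (a bijection
of the index sets, `Fin.append_left`). Otherwise, for every `π` there is `i` with `π i < pos (c i)`: if
`pos (c i) ≤ π i` for all `i`, then `pos (c i) < n`, `pos ∘ c` is strictly decreasing, so
`pos (c i) ≤ n - 1 - i` for all `i` (as `pos (c 0) ≤ n - 1`). For such an `i` the factor of
`(i, castAdd (π i))` of `eval (b ∘ π) (Fc c b)` is `b (π i) - b (π i) = 0`. -/
def S_FCV : Prop := ∀ (n : ℕ) (c : Fin n → Option (Fin (n + n))), Dec c →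
  (∀ (b : Fin n → ℤ) (π : P n), eval (b ∘ ⇑π) (Fc c b) = 0) ∨ (∀ b : Fin n → ℤ, Fc c b = gb b)

/-- PAIR (60 lines; `theorem t_PAIR : S_INVB → S_OPB → S_VAN → S_TOPD → S_GBV → S_PAIR`). PROOF:
(1) `s = rev`: TOPD. `s ≠ rev`: VAN with `ρ = 1`: `inv π ≤ inv s < inv rev`, so `π ≠ rev`, GBV. (2) OPB with
`u = v'`, `x = v⁻¹ * rev`: the value is `0` or that of `D (v' v⁻¹ rev) (gb b)`; for `v' = v` the lengths
add up by INVB. -/
def S_PAIR : Prop := ∀ (n : ℕ) (D : P n → R n → R n), IsD D → ∀ (b : Fin n → ℤ),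
  Function.Injective b →
  (∀ s : P n, eval b (D s (gb b)) = if s = Fin.revPerm then 1 else 0) ∧
  ∀ v v' : P n, eval b (D v' (D (v⁻¹ * Fin.revPerm) (gb b))) = if v' = v then 1 else 0

/-- SCH (60 lines; `theorem t_SCH : S_INVA → S_OPA → S_SCH`). PROOF: `u = rev`: `rev⁻¹ * rev = 1`,
evaluate the product. For `u j < u i`: `(u s)⁻¹ rev = s (u⁻¹ rev)` and, with `x = u⁻¹ rev`,
`x⁻¹ i = rev (u i) < rev (u j) = x⁻¹ j`, so the last clause of OPA applies; evaluate clause (1) of OPA
at `a` and divide by `a i - a j ≠ 0`. -/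
def S_SCH : Prop := ∀ (n : ℕ) (D : P n → R n → R n), IsD D →
  IsSch (fun (u : P n) (b a : Fin n → ℤ) => ((eval a (D (u⁻¹ * Fin.revPerm) (gb b)) : ℤ) : ℝ))

/-- DWE (40 lines; `theorem t_DWE : S_OPA → S_DWE`). PROOF: induction on `l`; `a ∘ swap i j` is
injective too. -/
def S_DWE : Prop := ∀ (n : ℕ) (D : P n → R n → R n), IsD D → ∀ l : List (Fin n × Fin n), Adj l →
  ∀ (f : R n) (a : Fin n → ℤ), Function.Injective a →
    dw l (fun a' => ((eval a' f : ℤ) : ℝ)) a = ((eval a (dl D l f) : ℤ) : ℝ)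

/-- DEN (40 lines). PROOF: `p - q` times `∏_(i<j) (X i - X j)` vanishes at all points with coordinates
`> B` (`MvPolynomial.funext_set` or a translation), so it is zero. -/
def S_DEN : Prop := ∀ (n : ℕ) (p q : R n) (B : ℤ),
  (∀ a : Fin n → ℤ, Function.Injective a → (∀ i, B < a i) → eval a p = eval a q) → p = q

/-- GZ (30 lines). The case `b = 0` is the staircase monomial. -/
def S_GZ : Prop := ∀ (n : ℕ), gb (fun _ : Fin n => (0 : ℤ)) =
  ∏ i : Fin n, X i ^ (n - 1 - (i : ℕ))

end Pool.Agent.KIR.S6
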